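import Pool.Agent.helper20.SOL.Spec

set_option autoImplicit false

namespace Pool.Agent.SOL

open Pool.Agent.helper54.SOG Finset

open scoped BigOperators

/-- `e_a - e_b` -/
def ASM_d {n : ℕ} (a b : Fin n) : Vec n :=
  fun c => (if c = a then 1 else 0) - (if c = b then 1 else 0)

lemma ASM_dp {n : ℕ} (x : Vec n) (a b : Fin n) : dp x (ASM_d a b) = x a - x b := by
  unfold dp ASM_d
  simp only [mul_sub, mul_ite, mul_one, mul_zero, sum_sub_distrib, sum_ite_eq', mem_univ, if_true]

lemma ASM_sub {n k : ℕ} (x : Vec n) (hx : x ∈ VA n k) (a b : Fin n) (hab : a ≠ b) (ha : x a = 1)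
    (hb : x b = 0) : x - ASM_d a b ∈ VA n k := by
  obtain ⟨h1, h2, h3⟩ := hx
  refine ⟨fun c => ?_, ?_, ?_⟩
  · rw [Pi.sub_apply]
    unfold ASM_d
    by_cases hca : c = a
    · subst hca
      rw [if_pos rfl, if_neg hab, ha]
      norm_num
    · by_cases hcb : c = b
      · subst hcb
        rw [if_neg hca, if_pos rfl, hb]
        norm_num
      · rw [if_neg hca, if_neg hcb, sub_zero, sub_zero]
        exact h1 c
  · simp only [Pi.sub_apply, sum_sub_distrib, h2, ASM_d, sum_ite_eq', mem_univ, if_true]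
    norm_num
  · rw [dp_sub_sub, h3, ASM_dp, ASM_dp, ha, hb]
    unfold ASM_d
    rw [if_pos rfl, if_neg hab, if_neg (Ne.symm hab), if_pos rfl]
    ring

lemma ASM_ex {n k : ℕ} (S Z : Finset (Fin n)) (hSZ : Disjoint S Z) (hS : S.card ≤ k)
    (hZ : 2 * k + Z.card ≤ n) :
    ∃ x ∈ VA n k, (∀ a ∈ S, x a = 1) ∧ (∀ a ∈ Z, x a = 0) := by
  classical
  have hS1 : S ⊆ univ \ Z := fun a ha =>
    mem_sdiff.2 ⟨mem_univ _, fun h => (disjoint_left.1 hSZ) ha h⟩
  have hc1 : (univ \ Z : Finset (Fin n)).card = n - Z.card := by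
    rw [card_sdiff_of_subset (subset_univ _), card_univ, Fintype.card_fin]
  obtain ⟨P, hSP, hPZ, hPk⟩ := exists_subsuperset_card_eq hS1 hS (by rw [hc1]; omega)
  have hc2 : ((univ \ Z) \ P : Finset (Fin n)).card = n - Z.card - k := by
    rw [card_sdiff_of_subset hPZ, hc1, hPk]
  obtain ⟨M, hM1, hMk⟩ := exists_subset_card_eq (s := (univ \ Z) \ P) (n := k)
    (by rw [hc2]; omega)
  have hPM : ∀ a, a ∈ P → a ∉ M := fun a ha hM => (mem_sdiff.1 (hM1 hM)).2 ha
  refine ⟨fun a => (if a ∈ P then 1 else 0) - (if a ∈ M then 1 else 0), ⟨fun a => ?_, ?_, ?_⟩,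
    fun a ha => ?_, fun a ha => ?_⟩
  · simp only
    split_ifs <;> norm_num
  · rw [sum_sub_distrib]
    simp only [sum_ite_mem, univ_inter, sum_const, hPk, hMk]
    ring
  · unfold dp
    have h5 : ∀ a : Fin n, ((if a ∈ P then (1 : ℤ) else 0) - (if a ∈ M then 1 else 0)) *
        ((if a ∈ P then 1 else 0) - (if a ∈ M then 1 else 0)) =
        (if a ∈ P then 1 else 0) + (if a ∈ M then 1 else 0) := by
      intro a
      by_cases h6 : a ∈ P
      · rw [if_pos h6, if_neg (hPM a h6)]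
        norm_num
      · rw [if_neg h6]
        split_ifs <;> norm_num
    rw [sum_congr rfl fun a _ => h5 a, sum_add_distrib]
    simp only [sum_ite_mem, univ_inter, sum_const, hPk, hMk]
    simp only [nsmul_eq_mul, mul_one]
    ring
  · have h7 := hSP ha
    simp only
    rw [if_pos h7, if_neg (hPM a h7)]
    norm_num
  · have h8 : a ∉ P := fun h => (mem_sdiff.1 (hPZ h)).2 ha
    have h9 : a ∉ M := fun h => (mem_sdiff.1 (mem_sdiff.1 (hM1 h)).1).2 ha
    simp only
    rw [if_neg h8, if_neg h9]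
    norm_num

/-- the linear map -/
noncomputable def ASM_F {n m : ℕ} (T : Fin n → Fin m → ℝ) (x : Vec n) : Fin m → ℝ :=
  ∑ i, (x i : ℝ) • T i

lemma ASM_Fsub {n m : ℕ} (T : Fin n → Fin m → ℝ) (x : Vec n) (a b : Fin n) :
    ASM_F T (x - ASM_d a b) = ASM_F T x - (T a - T b) := by
  unfold ASM_F ASM_d
  have h : ∀ i : Fin n, (((x - fun c => ((if c = a then (1 : ℤ) else 0) -
      (if c = b then 1 else 0))) i : ℤ) : ℝ) • T i =
      (x i : ℝ) • T i - ((if i = a then T i else 0) - (if i = b then T i else 0)) := by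
    intro i
    rw [Pi.sub_apply]
    push_cast
    rw [sub_smul, sub_smul]
    congr 2
    · split_ifs <;> simp
    · split_ifs <;> simp
  rw [sum_congr rfl fun i _ => h i]
  simp only [sum_sub_distrib, sum_ite_eq', mem_univ, if_true]

lemma ASM_orth {n m k : ℕ} (N : ℝ) (T : Fin n → Fin m → ℝ) (hk : 2 ≤ k) (hn : 3 * k ≤ n)
    (hN : ∀ x ∈ VA n k, ASM_F T x ⬝ᵥ ASM_F T x = N) (i j l o : Fin n) (hij : i ≠ j)
    (hil : i ≠ l) (hio : i ≠ o) (hjl : j ≠ l) (hjo : j ≠ o) (hlo : l ≠ o) :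
    (T i - T j) ⬝ᵥ (T l - T o) = 0 := by
  classical
  obtain ⟨x, hx, hx1, hx0⟩ := ASM_ex (n := n) (k := k) {i, l} {j, o} (by
      rw [disjoint_left]
      intro a ha hb
      rw [mem_insert, mem_singleton] at ha hb
      rcases ha with rfl | rfl
      · rcases hb with rfl | rfl
        · exact hij rfl
        · exact hio rfl
      · rcases hb with rfl | rfl
        · exact hjl rfl
        · exact hlo rfl)
    (by rw [card_pair hil]; exact hk) (by rw [card_pair hjo]; omega)
  have e1 : x i = 1 := hx1 i (by simp)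
  have e2 : x l = 1 := hx1 l (by simp)
  have e3 : x j = 0 := hx0 j (by simp)
  have e4 : x o = 0 := hx0 o (by simp)
  have hy := ASM_sub x hx i j hij e1 e3
  have hz := ASM_sub x hx l o hlo e2 e4
  have hw := ASM_sub _ hy l o hlo (by
      rw [Pi.sub_apply, e2]
      unfold ASM_d
      rw [if_neg (Ne.symm hil), if_neg (Ne.symm hjl)]
      norm_num) (by
      rw [Pi.sub_apply, e4]
      unfold ASM_d
      rw [if_neg (Ne.symm hio), if_neg (Ne.symm hjo)]
      norm_num)
  have n1 := hN _ hx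
  have n2 := hN _ hy
  have n3 := hN _ hz
  have n4 := hN _ hw
  rw [ASM_Fsub] at n2 n3
  rw [ASM_Fsub, ASM_Fsub] at n4
  generalize ASM_F T x = f at n1 n2 n3 n4
  generalize T i - T j = a at n2 n4 ⊢
  generalize T l - T o = b at n3 n4 ⊢
  simp only [sub_dotProduct, dotProduct_sub] at n2 n3 n4
  have c1 := dotProduct_comm f a
  have c2 := dotProduct_comm f b
  have c3 := dotProduct_comm a b
  linarith

lemma ASM_two {n m k : ℕ} (N : ℝ) (T : Fin n → Fin m → ℝ) (hk : 2 ≤ k) (hn : 3 * k ≤ n)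
    (hN : ∀ x ∈ VA n k, ASM_F T x ⬝ᵥ ASM_F T x = N) (i j l : Fin n) (hij : i ≠ j)
    (hil : i ≠ l) (hjl : j ≠ l) :
    (T i - T j) ⬝ᵥ (T i - T j) = 2 * ((T i - T l) ⬝ᵥ (T i - T j)) := by
  classical
  obtain ⟨x, hx, hx1, hx0⟩ := ASM_ex (n := n) (k := k) {i} {j} (by
      rw [disjoint_singleton]
      exact hij)
    (by rw [card_singleton]; omega) (by rw [card_singleton]; omega)
  have e1 : x i = 1 := hx1 i (by simp)
  have e3 : x j = 0 := hx0 j (by simp)
  have hy := ASM_sub x hx i j hij e1 e3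
  have n1 := hN _ hx
  have n2 := hN _ hy
  rw [ASM_Fsub] at n2
  have key : ASM_F T x ⬝ᵥ (T i - T j) = (T i - T l) ⬝ᵥ (T i - T j) := by
    have hsum : ∑ a, (x a : ℝ) = 0 := by
      have := hx.2.1
      exact_mod_cast this
    have h1 : ASM_F T x = ∑ a, (x a : ℝ) • (T a - T i) := by
      unfold ASM_F
      simp only [smul_sub, sum_sub_distrib]
      rw [← sum_smul, hsum, zero_smul, sub_zero]
    rw [h1, sum_dotProduct]
    have h2 : ∀ a : Fin n, ((x a : ℝ) • (T a - T i)) ⬝ᵥ (T i - T j) =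
        -((T i - T l) ⬝ᵥ (T i - T j)) * ((x a : ℝ) - (if a = i then 1 else 0)) := by
      intro a
      rw [smul_dotProduct, smul_eq_mul]
      by_cases hai : a = i
      · subst hai
        rw [if_pos rfl, e1, sub_self, zero_dotProduct]
        push_cast
        ring
      · rw [if_neg hai]
        by_cases haj : a = j
        · subst haj
          rw [e3]
          push_cast
          ring
        · have h3 : (T a - T i) ⬝ᵥ (T i - T j) = -((T i - T l) ⬝ᵥ (T i - T j)) := by
            by_cases hal : a = l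
            · subst hal
              rw [← neg_dotProduct, neg_sub]
            · have h4 := ASM_orth N T hk hn hN a l i j hal hai haj (Ne.symm hil) (Ne.symm hjl) hij
              have h5 : T a - T i = (T a - T l) + -(T i - T l) := by abel
              rw [h5, add_dotProduct, h4, zero_add, neg_dotProduct]
          rw [h3]
          ring
    rw [sum_congr rfl fun a _ => h2 a, ← mul_sum, sum_sub_distrib, hsum]
    simp only [sum_ite_eq', mem_univ, if_true]
    ring
  generalize ASM_F T x = f at n1 n2 key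
  rw [← key]
  simp only [sub_dotProduct, dotProduct_sub] at n1 n2 ⊢
  have c1 := dotProduct_comm f (T i)
  have c2 := dotProduct_comm f (T j)
  have c3 := dotProduct_comm (T i) (T j)
  linarith

lemma ASM_const {n m k : ℕ} (N : ℝ) (T : Fin n → Fin m → ℝ) (hk : 1 ≤ k) (hn : 3 * k ≤ n)
    (hN : ∀ x ∈ VA n k, ASM_F T x ⬝ᵥ ASM_F T x = N) :
    ∃ b : ℝ, ∀ i j : Fin n, i ≠ j → (T i - T j) ⬝ᵥ (T i - T j) = b := by
  classical
  rcases Nat.lt_or_ge k 2 with hk2 | hk2
  · have hk1 : k = 1 := by omega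
    subst hk1
    refine ⟨N, fun i j hij => ?_⟩
    have hx : ASM_d i j ∈ VA n 1 := by
      refine ⟨fun c => ?_, ?_, ?_⟩
      · unfold ASM_d
        split_ifs <;> norm_num
      · simp only [ASM_d, sum_sub_distrib, sum_ite_eq', mem_univ, if_true]
        norm_num
      · rw [ASM_dp]
        unfold ASM_d
        rw [if_pos rfl, if_neg hij, if_neg (Ne.symm hij), if_pos rfl]
        norm_num
    have h1 := hN _ hx
    have h2 : ASM_F T (ASM_d i j) = T i - T j := by
      have h3 := ASM_Fsub T (0 : Vec n) j i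
      have h4 : (0 : Vec n) - ASM_d j i = ASM_d i j := by
        funext c
        simp [ASM_d]
      rw [h4] at h3
      rw [h3]
      unfold ASM_F
      simp
    rw [h2] at h1
    exact h1
  · have hsym : ∀ i j : Fin n, (T i - T j) ⬝ᵥ (T i - T j) = (T j - T i) ⬝ᵥ (T j - T i) := by
      intro i j
      rw [← neg_sub (T i) (T j), neg_dotProduct, dotProduct_neg, neg_neg]
    have h1 : ∀ i j l : Fin n, i ≠ j → i ≠ l →
        (T i - T j) ⬝ᵥ (T i - T j) = (T i - T l) ⬝ᵥ (T i - T l) := by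
      intro i j l hij hil
      by_cases hjl : j = l
      · rw [hjl]
      · have a1 := ASM_two N T hk2 hn hN i j l hij hil hjl
        have a2 := ASM_two N T hk2 hn hN i l j hil hij (Ne.symm hjl)
        rw [a1, a2, dotProduct_comm]
    have hn0 : 0 < n := by omega
    have hn1 : 1 < n := by omega
    obtain ⟨a, b, hab⟩ : ∃ a b : Fin n, a ≠ b := ⟨⟨0, hn0⟩, ⟨1, hn1⟩, by
      intro h
      exact absurd (congrArg Fin.val h) (by norm_num)⟩
    refine ⟨(T a - T b) ⬝ᵥ (T a - T b), fun i j hij => ?_⟩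
    by_cases hia : i = a
    · subst hia
      exact h1 i j b hij hab
    · rw [h1 i j a hij hia, hsym i a]
      exact h1 a i b (Ne.symm hia) hab

lemma ASM_quad {n m : ℕ} (T : Fin n → Fin m → ℝ) (b : ℝ)
    (hb : ∀ i j : Fin n, i ≠ j → (T i - T j) ⬝ᵥ (T i - T j) = b) (u : Fin n → ℝ)
    (hu : ∑ i, u i = 0) :
    (∑ i, u i • T i) ⬝ᵥ (∑ i, u i • T i) = b / 2 * ∑ i, u i * u i := by
  classical
  have h1 : ∀ i j : Fin n, T i ⬝ᵥ T j =
      (T i ⬝ᵥ T i + T j ⬝ᵥ T j - b + (if j = i then b else 0)) / 2 := by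
    intro i j
    by_cases hij : j = i
    · subst hij
      rw [if_pos rfl]
      ring
    · rw [if_neg hij]
      have h2 := hb i j (Ne.symm hij)
      simp only [sub_dotProduct, dotProduct_sub] at h2
      have h3 := dotProduct_comm (T i) (T j)
      linarith
  have h4 : (∑ i, u i • T i) ⬝ᵥ (∑ i, u i • T i) = ∑ i, ∑ j, u i * (u j * (T i ⬝ᵥ T j)) := by
    rw [sum_dotProduct]
    refine sum_congr rfl fun i _ => ?_
    rw [dotProduct_sum]
    refine sum_congr rfl fun j _ => ?_
    rw [smul_dotProduct, dotProduct_smul, smul_eq_mul, smul_eq_mul]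
  rw [h4]
  have h5 : ∀ i : Fin n, ∑ j, u i * (u j * (T i ⬝ᵥ T j)) =
      u i * ((∑ j, u j * (T j ⬝ᵥ T j)) / 2) + b / 2 * (u i * u i) := by
    intro i
    rw [← mul_sum]
    have h6 : ∑ j, u j * (T i ⬝ᵥ T j) = (T i ⬝ᵥ T i - b) / 2 * ∑ j, u j +
        (∑ j, u j * (T j ⬝ᵥ T j)) / 2 + b / 2 * u i := by
      have h7 : ∀ j : Fin n, u j * (T i ⬝ᵥ T j) = (T i ⬝ᵥ T i - b) / 2 * u j +
          (u j * (T j ⬝ᵥ T j)) / 2 + (if j = i then b / 2 * u j else 0) := by
        intro j
        rw [h1 i j]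
        split_ifs
        · ring
        · ring
      rw [sum_congr rfl fun j _ => h7 j, sum_add_distrib, sum_add_distrib, ← mul_sum, sum_div]
      simp only [sum_ite_eq', mem_univ, if_true]
    rw [h6, hu]
    ring
  rw [sum_congr rfl fun i _ => h5 i, sum_add_distrib, ← sum_mul, hu, ← mul_sum]
  ring

theorem ASM : ASM_stmt := by
  intro n m k N T hk hn hN u hu
  obtain ⟨b, hb⟩ := ASM_const (k := k) N T hk hn hN
  rw [ASM_quad T b hb u hu]
  obtain ⟨x, hx, -, -⟩ := ASM_ex (n := n) (k := k) ∅ ∅ (disjoint_empty_right _)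
    (by rw [card_empty]; omega) (by rw [card_empty]; omega)
  have h1 := hN x hx
  have h2 : ∑ i, (fun i => (x i : ℝ)) i = 0 := by
    have := hx.2.1
    simp only
    exact_mod_cast this
  have h3 := ASM_quad T b hb (fun i => (x i : ℝ)) h2
  have h4 : ∑ i, (x i : ℝ) * (x i : ℝ) = 2 * k := by
    have := hx.2.2
    unfold dp at this
    exact_mod_cast this
  change ASM_F T x ⬝ᵥ ASM_F T x = b / 2 * ∑ i, (x i : ℝ) * (x i : ℝ) at h3
  have h1' : ASM_F T x ⬝ᵥ ASM_F T x = N := h1
  rw [h1', h4] at h3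
  have hk0 : (k : ℝ) ≠ 0 := by
    have : 0 < k := by omega
    positivity
  rw [h3]
  field_simp

end Pool.Agent.SOL
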