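import Pool.Agent.helper20.SOL.SpecE

set_option autoImplicit false

namespace Pool.Agent.SOL

open Pool.Agent.helper54.SOG Finset

open scoped BigOperators

/-- the number of vectors of length `n` with all entries of the parity `p`, square sum `m` and sum `c`
modulo `4` -/
def CE6_cnt : ℕ → ℤ → ℤ → ℤ → ℕ
  | 0, _, m, c => if m = 0 ∧ c % 4 = 0 then 1 else 0
  | n + 1, p, m, c => ∑ t ∈ range 9, if ((t : ℤ) - 4) % 2 = p then
      CE6_cnt n p (m - ((t : ℤ) - 4) * ((t : ℤ) - 4)) (c - ((t : ℤ) - 4)) else 0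

/-- these vectors -/
def CE6_fs : (n : ℕ) → ℤ → ℤ → ℤ → Finset (Fin n → ℤ)
  | 0, _, m, c => if m = 0 ∧ c % 4 = 0 then {Fin.elim0} else ∅
  | n + 1, p, m, c => (range 9).biUnion fun t => if ((t : ℤ) - 4) % 2 = p then
      (CE6_fs n p (m - ((t : ℤ) - 4) * ((t : ℤ) - 4)) (c - ((t : ℤ) - 4))).image
        (fun y => (Fin.cons ((t : ℤ) - 4) y : Fin (n + 1) → ℤ)) else ∅

lemma CE6_card : ∀ (n : ℕ) (p m c : ℤ), (CE6_fs n p m c).card = CE6_cnt n p m c := by
  intro n
  induction n with
  | zero =>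
    intro p m c
    unfold CE6_fs CE6_cnt
    split_ifs <;> rfl
  | succ n ih =>
    intro p m c
    rw [CE6_fs, CE6_cnt, card_biUnion]
    · refine sum_congr rfl fun t _ => ?_
      split_ifs
      · rw [card_image_of_injective _ (Fin.cons_right_injective (α := fun _ => ℤ) _), ih]
      · rfl
    · intro t _ t' _ htt
      rw [Function.onFun, disjoint_left]
      intro y hy hy'
      split_ifs at hy with h1
      · split_ifs at hy' with h2
        · obtain ⟨z, -, rfl⟩ := mem_image.1 hy
          obtain ⟨z', -, h3⟩ := mem_image.1 hy'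
          have h4 := congrFun h3 0
          rw [Fin.cons_zero, Fin.cons_zero] at h4
          apply htt
          omega
        · exact absurd hy' (notMem_empty _)
      · exact absurd hy (notMem_empty _)

lemma CE6_mem : ∀ (n : ℕ) (p m c : ℤ), m ≤ 24 → ∀ y : Fin n → ℤ,
    y ∈ CE6_fs n p m c ↔ (∀ i, y i % 2 = p) ∧ ∑ i, y i * y i = m ∧ (c - ∑ i, y i) % 4 = 0 := by
  intro n
  induction n with
  | zero =>
    intro p m c hm y
    unfold CE6_fs
    simp only [univ_eq_empty, sum_empty, sub_zero]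
    constructor
    · intro h
      split_ifs at h with h1
      · exact ⟨fun i => i.elim0, h1.1.symm, h1.2⟩
      · exact absurd h (notMem_empty _)
    · rintro ⟨-, h1, h2⟩
      rw [if_pos ⟨h1.symm, h2⟩, mem_singleton]
      funext i
      exact i.elim0
  | succ n ih =>
    intro p m c hm y
    rw [CE6_fs, mem_biUnion]
    constructor
    · rintro ⟨t, -, ht⟩
      split_ifs at ht with h1
      · obtain ⟨z, hz, rfl⟩ := mem_image.1 ht
        have h2 := (ih p _ _ (by nlinarith [mul_self_nonneg ((t : ℤ) - 4)]) z).1 hz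
        refine ⟨fun i => ?_, ?_, ?_⟩
        · refine Fin.cases ?_ (fun j => ?_) i
          · rw [Fin.cons_zero]
            exact h1
          · rw [Fin.cons_succ]
            exact h2.1 j
        · rw [Fin.sum_univ_succ]
          simp only [Fin.cons_zero, Fin.cons_succ]
          rw [h2.2.1]
          ring
        · rw [Fin.sum_univ_succ]
          simp only [Fin.cons_zero, Fin.cons_succ]
          have h3 := h2.2.2
          omega
      · exact absurd ht (notMem_empty _)
    · rintro ⟨h1, h2, h3⟩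
      rw [Fin.sum_univ_succ] at h2 h3
      have h4 : 0 ≤ ∑ i : Fin n, y i.succ * y i.succ := sum_nonneg fun i _ => mul_self_nonneg _
      have h5 : y 0 * y 0 ≤ 24 := by omega
      have h6 : -4 ≤ y 0 ∧ y 0 ≤ 4 := by
        constructor
        · by_contra hh
          push Not at hh
          nlinarith
        · by_contra hh
          push Not at hh
          nlinarith
      refine ⟨(y 0 + 4).toNat, mem_range.2 (by omega), ?_⟩
      have h7 : (((y 0 + 4).toNat : ℕ) : ℤ) - 4 = y 0 := by omega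
      rw [h7, if_pos (h1 0)]
      refine mem_image.2 ⟨fun i => y i.succ, ?_, ?_⟩
      · rw [ih _ _ _ (by nlinarith [mul_self_nonneg (y 0)])]
        refine ⟨fun i => h1 i.succ, ?_, ?_⟩
        · omega
        · omega
      · exact Fin.cons_self_tail y

/-- the vector `(y, a, a, -a)` -/
def CE6_v (a : ℤ) (y : Fin 5 → ℤ) : Vec 8 := ![y 0, y 1, y 2, y 3, y 4, a, a, -a]

lemma CE6_inj (a : ℤ) : Function.Injective (CE6_v a) := by
  intro y z h
  funext i
  have h0 := congrFun h 0
  have h1 := congrFun h 1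
  have h2 := congrFun h 2
  have h3 := congrFun h 3
  have h4 := congrFun h 4
  fin_cases i
  · exact h0
  · exact h1
  · exact h2
  · exact h3
  · exact h4

lemma CE6_set (k : ℕ) (hk : k ≤ 3) : XE6 k = ((range 5).biUnion fun t =>
    (CE6_fs 5 (((t : ℤ) - 2) % 2) (8 * k - 3 * (((t : ℤ) - 2) * ((t : ℤ) - 2)))
      (-((t : ℤ) - 2))).image (CE6_v ((t : ℤ) - 2)) : Finset (Vec 8)) := by
  ext x
  rw [mem_coe, mem_biUnion]
  constructor
  · rintro ⟨⟨h1, h2⟩, h3, h4, h5⟩
    have e7 : x 7 = -x 6 := by omega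
    have hsum : ∑ i, x i = x 0 + x 1 + x 2 + x 3 + x 4 + x 6 := by
      rw [Fin.sum_univ_eight]
      omega
    have hdp : dp x x = x 0 * x 0 + x 1 * x 1 + x 2 * x 2 + x 3 * x 3 + x 4 * x 4 +
        3 * (x 6 * x 6) := by
      unfold dp
      rw [Fin.sum_univ_eight, e7, h4]
      ring
    have hk' : (k : ℤ) ≤ 3 := by exact_mod_cast hk
    have hb : x 6 * x 6 ≤ 8 := by
      nlinarith [mul_self_nonneg (x 0), mul_self_nonneg (x 1), mul_self_nonneg (x 2),
        mul_self_nonneg (x 3), mul_self_nonneg (x 4)]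
    have h6 : -2 ≤ x 6 ∧ x 6 ≤ 2 := by
      constructor
      · by_contra hh
        push Not at hh
        nlinarith
      · by_contra hh
        push Not at hh
        nlinarith
    refine ⟨(x 6 + 2).toNat, mem_range.2 (by omega), ?_⟩
    have h7 : (((x 6 + 2).toNat : ℕ) : ℤ) - 2 = x 6 := by omega
    rw [h7]
    refine mem_image.2 ⟨![x 0, x 1, x 2, x 3, x 4], ?_, ?_⟩
    · rw [CE6_mem 5 _ _ _ (by nlinarith [mul_self_nonneg (x 6)])]
      refine ⟨fun i => ?_, ?_, ?_⟩
      · fin_cases i
        · exact h1 0 6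
        · exact h1 1 6
        · exact h1 2 6
        · exact h1 3 6
        · exact h1 4 6
      · rw [Fin.sum_univ_five]
        change x 0 * x 0 + x 1 * x 1 + x 2 * x 2 + x 3 * x 3 + x 4 * x 4 = _
        rw [hdp] at h5
        linarith
      · rw [Fin.sum_univ_five]
        change (-x 6 - (x 0 + x 1 + x 2 + x 3 + x 4)) % 4 = 0
        rw [hsum] at h2
        omega
    · funext i
      fin_cases i
      · rfl
      · rfl
      · rfl
      · rfl
      · rfl
      · exact h4.symm
      · rfl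
      · exact e7.symm
  · rintro ⟨t, ht, hx⟩
    obtain ⟨y, hy, rfl⟩ := mem_image.1 hx
    have ht5 := mem_range.1 ht
    obtain ⟨a, ha⟩ : ∃ a : ℤ, a = (t : ℤ) - 2 := ⟨_, rfl⟩
    rw [← ha] at hy ⊢
    have hk' : (k : ℤ) ≤ 3 := by exact_mod_cast hk
    rw [CE6_mem 5 _ _ _ (by nlinarith [mul_self_nonneg a])] at hy
    obtain ⟨h1, h2, h3⟩ := hy
    rw [Fin.sum_univ_five] at h2 h3
    have hpar : ∀ i : Fin 8, CE6_v a y i % 2 = a % 2 := by
      intro i
      fin_cases i
      · exact h1 0
      · exact h1 1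
      · exact h1 2
      · exact h1 3
      · exact h1 4
      · rfl
      · rfl
      · change (-a) % 2 = a % 2
        omega
    refine ⟨⟨fun i j => by rw [hpar i, hpar j], ?_⟩, ?_, rfl, ?_⟩
    · rw [Fin.sum_univ_eight]
      change (y 0 + y 1 + y 2 + y 3 + y 4 + a + a + -a) % 4 = 0
      omega
    · change a + -a = 0
      omega
    · unfold dp
      rw [Fin.sum_univ_eight]
      change y 0 * y 0 + y 1 * y 1 + y 2 * y 2 + y 3 * y 3 + y 4 * y 4 + a * a + a * a +
        -a * -a = _
      linarith [h2, neg_mul_neg a a]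

lemma CE6_ncard (k : ℕ) (hk : k ≤ 3) : (XE6 k).ncard = ∑ t ∈ range 5,
    CE6_cnt 5 (((t : ℤ) - 2) % 2) (8 * k - 3 * (((t : ℤ) - 2) * ((t : ℤ) - 2)))
      (-((t : ℤ) - 2)) := by
  rw [CE6_set k hk, Set.ncard_coe_finset, card_biUnion]
  · refine sum_congr rfl fun t _ => ?_
    rw [card_image_of_injective _ (CE6_inj _), CE6_card]
  · intro t _ t' _ htt
    rw [Function.onFun, disjoint_left]
    intro y hy hy'
    obtain ⟨z, -, rfl⟩ := mem_image.1 hy
    obtain ⟨z', -, h3⟩ := mem_image.1 hy'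
    have h4 : (t' : ℤ) - 2 = (t : ℤ) - 2 := congrFun h3 6
    apply htt
    omega

theorem CE6 : CE6_stmt := by
  refine ⟨?_, ?_, ?_⟩
  · rw [CE6_ncard 1 (by norm_num)]
    decide +kernel
  · rw [CE6_ncard 2 (by norm_num)]
    decide +kernel
  · rw [CE6_ncard 3 (by norm_num)]
    decide +kernel

end Pool.Agent.SOL
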